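import Pool.Agent.Results.MP_7bfa24_nt.TuplesByRadical
import Pool.Agent.V11001.KM.Near

/-!
# The generalized abc conjecture for `n` summands: radicals near the powers of almost every number

Let `n ≥ 3`, `δ = 1 / binom (n, ⌊n / 2⌋)`, and let `R` be the radical of the product of the entries of an admissible
`n`-tuple. The conjecture says that `max |x_i| ≤ C R ^ (2 n - 5 + ε)`.

**Theorem.** For every `ε > 0` there is `c > 0` such that for every `ν` with `ν m / log m → ∞` (for example `ν m = m`) and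
every countable set `U` of reals: for almost every real `x > 1`, all positive `y` in `U` and all `θ < δ - ε` there is `H₀`
such that every admissible `n`-tuple whose radical satisfies `R ≥ H₀` and `|R - y x ^ (ν m)| ≤ x ^ (θ ν m)` for some `m` has
`max |x_i| > R ^ (c log log R)`.
-/

set_option autoImplicit false

namespace Pool.Agent.Results.MP_7bfa24_nt.LowTuplesNearPowers

open MeasureTheory
open Pool.Agent.V11001.KM (Fast Near)
open Pool.Agent.Results.MP_7bfa24_nt.SuperpolynomialHeights (Admissible)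
open TuplesByRadical (R Low expo expo_pos count)

/-- every admissible tuple with radical at least `H₀` in the windows around `y x ^ (ν m)` is higher than
`R ^ (c log log R)` -/
def Law (n : ℕ) (c : ℝ) (ν : ℕ → ℝ) (θ y x : ℝ) : Prop :=
  ∃ H₀ : ℝ, ∀ z : Fin n → ℤ, Admissible z → H₀ ≤ (R z : ℝ) → Near ν θ y x (R z) →
    ∃ i, (R z : ℝ) ^ (c * Real.log (Real.log (R z))) < ((|z i| : ℤ) : ℝ)

theorem law_of {n : ℕ} {c θ y x : ℝ} {ν : ℕ → ℝ}
    (h : ∃ H₀ : ℝ, ∀ z ∈ Low n c, Near ν θ y x (R z) → (R z : ℝ) < H₀) : Law n c ν θ y x := by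
  obtain ⟨H₀, hH⟩ := h
  refine ⟨H₀, fun z hz hR hN => ?_⟩
  by_contra hcon
  push Not at hcon
  exact absurd (hH z ⟨hz, hcon⟩ hN) (not_lt.2 hR)

/-- **Theorem.** For `n ≥ 3` and `ε > 0` there is `c > 0` such that for all `ν` with `ν m / log m → ∞` and all countable `U`:
(1) for `θ < 1` there is a set `E` of Hausdorff dimension at most `(1 - 1 / binom (n, ⌊n / 2⌋) + ε) / (1 - θ)` such that for
all `x > 1` outside `E` and `0 < y ∈ U` every admissible `n`-tuple with a large radical `R` and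
`|R - y x ^ (ν m)| ≤ x ^ (θ ν m)` for some `m` has `max |x_i| > R ^ (c log log R)`;
(2) for almost every `x > 1` this holds for all `θ < 1 / binom (n, ⌊n / 2⌋) - ε`. -/
theorem result (n : ℕ) (hn : 3 ≤ n) (ε : ℝ) (hε : 0 < ε) : ∃ c : ℝ, 0 < c ∧
    ∀ ν : ℕ → ℝ, Fast ν → ∀ U : Set ℝ, U.Countable →
      (∀ θ : ℝ, θ < 1 → ∃ E : Set ℝ,
        dimH E ≤ ENNReal.ofReal ((1 - 1 / (n.choose (n / 2) : ℝ) + ε) / (1 - θ)) ∧
        ∀ x : ℝ, 1 < x → x ∉ E → ∀ y ∈ U, 0 < y → Law n c ν θ y x) ∧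
      (∀ᵐ x : ℝ, 1 < x → ∀ θ : ℝ, θ < 1 / (n.choose (n / 2) : ℝ) - ε → ∀ y ∈ U, 0 < y →
        Law n c ν θ y x) := by
  obtain ⟨c, hc, hcount⟩ := count n hn ε hε
  have hs := expo_pos (n := n) hε
  refine ⟨c, hc, fun ν hν U hU => ⟨fun θ hθ => ?_, ?_⟩⟩
  · obtain ⟨E, h1, h2⟩ := Pool.Agent.V11001.KM.family_threshold (fun z : Fin n → ℤ => (R z : ℝ)) hν hs.le hθ U hU
      (J := Unit) (fun _ => Low n c) (fun _ ε' hε' => hcount ε' hε')
    exact ⟨E, h1, fun x hx hxE y hy hy0 => law_of (h2 x hx hxE y hy hy0 ())⟩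
  · filter_upwards [Pool.Agent.V11001.KM.ae_family_threshold (fun z : Fin n → ℤ => (R z : ℝ)) hν hs.le U hU
      (J := Unit) (fun _ => Low n c) (fun _ ε' hε' => hcount ε' hε')] with x hx hx1 θ hθ y hy hy0
    have h3 : θ < 1 - expo n ε := by
      unfold expo
      linarith
    exact law_of (hx hx1 θ h3 y hy hy0 ())

end Pool.Agent.Results.MP_7bfa24_nt.LowTuplesNearPowers
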