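import Pool.Agent.Results.MP_7bfa24_nt.SuperpolynomialHeights
import Pool.Agent.Y854.GM.Win
import Pool.Agent.H107.MetricFam
import Pool.Agent.H107.MetricPi

/-!
# The generalized abc conjecture for `n` summands: points and windows measured by the radical

Let `n = k + 3 ≥ 3` and `δ = 1 / binom (n, ⌊n / 2⌋)`. Call an admissible `n`-tuple `x` low if
`max |x_i| ≤ R ^ (c log log R)`, `R = R (x_1 ⋯ x_n)` the radical. (The conjecture says that `max |x_i| ≤ C R ^ (2 n - 5 + ε)`.)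

**Theorem.** For every `ε > 0` there is `c > 0` with the following properties.

1. For every map `φ` of the `n`-tuples to a metric space and `σ > 0` there is a set of Hausdorff dimension at most
`(1 - δ + ε) / σ` such that for all `z` outside of it only finitely many low tuples satisfy `dist (φ x) z ≤ R ^ (-σ)`.

2. Let `σ > (1 - δ + ε) / (n - 2)`. For almost all `z` in `ℝ ^ (n - 2)` only finitely many low tuples satisfy
`|x_i / x_n - z_i| ≤ R ^ (-σ)` for `i ≤ n - 2`. (The numbers `x_i / x_n`, `i ≤ n - 2`, determine an admissible tuple up to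
sign.) So ALL the admissible tuples near `z` but finitely many are larger than every given power of the radical.

3. Let `v_m ≥ 1` be a sequence with exponent of convergence at most `τ` (`0` for `b ^ m`, `1 / a` for `(m + 1) ^ a`) and
`θ < 1`. For all `α > 0` outside of a set of Hausdorff dimension at most `(1 - δ + ε + τ) / (1 - θ)` and all large `m`, every
admissible tuple with `|R - α v_m| ≤ v_m ^ θ` has `max |x_i| > R ^ (c log log R)`. For `v_m = b ^ m`, `θ < δ` and small `ε`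
this set has dimension smaller than one: so in the windows of length `v_m ^ θ` around almost all `α v_m` there is no radical
of an admissible tuple of height at most `R ^ A`, for every `A`.

The proof combines the number `O(Y ^ (1 - δ + ε))` of the low tuples with `R ≤ Y` (starting file `SuperpolynomialHeights`) with
coverings.
-/

set_option autoImplicit false

namespace Pool.Agent.Results.MP_7bfa24_nt.TuplesByRadical

open MeasureTheory
open Pool.Agent.Results.MP_7bfa24_nt.SuperpolynomialHeights (Admissible radical Tuples)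

/-- the radical of the product of the entries -/
def R {n : ℕ} (x : Fin n → ℤ) : ℕ := radical (∏ j, x j)

/-- the admissible tuples with `max |x_i| ≤ R ^ (c log log R)` -/
def Low (n : ℕ) (c : ℝ) : Set (Fin n → ℤ) :=
  {x | Admissible x ∧ ∀ i, ((|x i| : ℤ) : ℝ) ≤ (R x : ℝ) ^ (c * Real.log (Real.log (R x)))}

/-- the ratios `x_i / x_n`, `i ≤ n - 2`, for `n = k + 3` -/
noncomputable def ratios {k : ℕ} (x : Fin (k + 3) → ℤ) : Fin (k + 1) → ℝ :=
  fun i => (x (Fin.castLE (by omega) i) : ℝ) / (x (Fin.last (k + 2)) : ℝ)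

/-- the exponent of convergence of the sequence `v` is at most `τ` -/
def ExpLe (v : ℕ → ℝ) (τ : ℝ) : Prop := ∀ t : ℝ, τ < t → Summable (fun m : ℕ => (v m) ^ (-t))

/-- the exponent `1 - 1 / binom (n, ⌊n / 2⌋) + ε` -/
noncomputable def expo (n : ℕ) (ε : ℝ) : ℝ := 1 - 1 / (n.choose (n / 2) : ℝ) + ε

theorem R_pos {n : ℕ} (x : Fin n → ℤ) : (1 : ℝ) ≤ R x := by
  have h : 0 < R x := Finset.prod_pos fun p hp => (Nat.prime_of_mem_primeFactors hp).pos
  exact_mod_cast h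

theorem expo_pos {n : ℕ} {ε : ℝ} (hε : 0 < ε) : 0 < expo n ε := by
  have h1 : 1 ≤ n.choose (n / 2) := Nat.choose_pos (Nat.div_le_self n 2)
  have h2 : (1 : ℝ) ≤ (n.choose (n / 2) : ℝ) := by exact_mod_cast h1
  have h3 : 1 / (n.choose (n / 2) : ℝ) ≤ 1 := by
    rw [div_le_one (by linarith)]
    exact h2
  unfold expo
  linarith

theorem pow_mono {c : ℝ} (hc : 0 < c) {r Y : ℕ} (hr : 1 ≤ r) (hrY : r ≤ Y) (hY : 3 ≤ Y) :
    (r : ℝ) ^ (c * Real.log (Real.log r)) ≤ (Y : ℝ) ^ (c * Real.log (Real.log Y)) := by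
  have hY1 : (1 : ℝ) ≤ Y := by exact_mod_cast (by omega : 1 ≤ Y)
  have h3 : (1 : ℝ) < Real.log 3 := by
    rw [Real.lt_log_iff_exp_lt (by norm_num)]
    linarith [Real.exp_one_lt_d9]
  have hlY : Real.log 3 ≤ Real.log Y := Real.log_le_log (by norm_num) (by exact_mod_cast hY)
  have hllY : 0 ≤ Real.log (Real.log Y) := Real.log_nonneg (by linarith)
  by_cases h : 3 ≤ r
  · have hr1 : (1 : ℝ) ≤ r := by exact_mod_cast hr
    have hlr : Real.log 3 ≤ Real.log r := Real.log_le_log (by norm_num) (by exact_mod_cast h)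
    have hllr : 0 ≤ Real.log (Real.log r) := Real.log_nonneg (by linarith)
    have hrY' : (r : ℝ) ≤ Y := by exact_mod_cast hrY
    have hll : Real.log (Real.log r) ≤ Real.log (Real.log Y) :=
      Real.log_le_log (by linarith) (Real.log_le_log (by linarith) hrY')
    calc (r : ℝ) ^ (c * Real.log (Real.log r)) ≤ (Y : ℝ) ^ (c * Real.log (Real.log r)) :=
          Real.rpow_le_rpow (by linarith) hrY' (mul_nonneg hc.le hllr)
      _ ≤ (Y : ℝ) ^ (c * Real.log (Real.log Y)) :=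
          Real.rpow_le_rpow_of_exponent_le hY1 (mul_le_mul_of_nonneg_left hll hc.le)
  · have hle : (1 : ℝ) ≤ (Y : ℝ) ^ (c * Real.log (Real.log Y)) :=
      Real.one_le_rpow hY1 (mul_nonneg hc.le hllY)
    refine le_trans ?_ hle
    interval_cases r
    · simp
    · have hl2 : 0 < Real.log 2 := Real.log_pos (by norm_num)
      have hl2' : Real.log 2 ≤ 1 := by linarith [Real.log_two_lt_d9]
      have hll2 : Real.log (Real.log 2) ≤ 0 := Real.log_nonpos hl2.le hl2'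
      rw [Nat.cast_ofNat]
      exact Real.rpow_le_one_of_one_le_of_nonpos (by norm_num) (mul_nonpos_of_nonneg_of_nonpos hc.le hll2)

/-- the number of the low tuples -/
theorem count (n : ℕ) (hn : 3 ≤ n) (ε : ℝ) (hε : 0 < ε) : ∃ c : ℝ, 0 < c ∧ ∀ ε' : ℝ, 0 < ε' → ∃ C : ℝ, ∀ X : ℝ, 1 ≤ X →
    {x | x ∈ Low n c ∧ (R x : ℝ) ≤ X}.Finite ∧
      ({x | x ∈ Low n c ∧ (R x : ℝ) ≤ X}.ncard : ℝ) ≤ C * X ^ (expo n ε + ε') := by
  obtain ⟨c, hc, Y₀, h⟩ := Pool.Agent.Results.MP_7bfa24_nt.SuperpolynomialHeights.result n hn ε hε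
  refine ⟨c, hc, fun ε' hε' => ⟨((Y₀ : ℝ) + 4) ^ expo n ε, fun X hX => ?_⟩⟩
  set Y : ℕ := max ⌊X⌋₊ (Y₀ + 3) with hY
  obtain ⟨h1, h2⟩ := h Y (by omega)
  have hsub : {x | x ∈ Low n c ∧ (R x : ℝ) ≤ X} ⊆ Tuples n c Y := by
    rintro x ⟨⟨g1, g2⟩, g3⟩
    have hRY : R x ≤ Y := (Nat.le_floor g3).trans (le_max_left _ _)
    exact ⟨g1, hRY, fun i => (g2 i).trans (pow_mono hc (by exact_mod_cast R_pos x) hRY (by omega))⟩
  refine ⟨h1.subset hsub, ?_⟩
  have h3 : ({x | x ∈ Low n c ∧ (R x : ℝ) ≤ X}.ncard : ℝ) ≤ ((Tuples n c Y).ncard : ℝ) := by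
    exact_mod_cast Set.ncard_le_ncard hsub h1
  have hYX : (Y : ℝ) ≤ ((Y₀ : ℝ) + 4) * X := by
    have hY₀ : (0 : ℝ) ≤ Y₀ := Nat.cast_nonneg _
    have h4 : ((⌊X⌋₊ : ℕ) : ℝ) ≤ X := Nat.floor_le (by linarith)
    rw [hY]
    push_cast
    refine max_le (by nlinarith) (by nlinarith)
  have hs := expo_pos (n := n) hε
  calc ({x | x ∈ Low n c ∧ (R x : ℝ) ≤ X}.ncard : ℝ) ≤ (Y : ℝ) ^ expo n ε := h3.trans h2
    _ ≤ (((Y₀ : ℝ) + 4) * X) ^ expo n ε := Real.rpow_le_rpow (Nat.cast_nonneg _) hYX hs.le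
    _ = ((Y₀ : ℝ) + 4) ^ expo n ε * X ^ expo n ε := Real.mul_rpow (by positivity) (by linarith)
    _ ≤ ((Y₀ : ℝ) + 4) ^ expo n ε * X ^ (expo n ε + ε') :=
        mul_le_mul_of_nonneg_left (Real.rpow_le_rpow_of_exponent_le hX (by linarith)) (by positivity)

/-- **Theorem.** For `n = k + 3` and `ε > 0` there is `c > 0` such that (1) for maps to metric spaces, (2) for almost all
points of `ℝ ^ (n - 2)`, (3) for windows of radicals; (4), (5) examples of exponents of convergence. -/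
theorem result (k : ℕ) (ε : ℝ) (hε : 0 < ε) : ∃ c : ℝ, 0 < c ∧
    (∀ (M : Type) [MetricSpace M] (φ : (Fin (k + 3) → ℤ) → M) (σ : ℝ), 0 < σ →
      ∃ E : Set M, dimH E ≤ ENNReal.ofReal (expo (k + 3) ε / σ) ∧ ∀ z ∉ E,
        {x | x ∈ Low (k + 3) c ∧ dist (φ x) z ≤ (R x : ℝ) ^ (-σ)}.Finite) ∧
    (∀ σ : ℝ, expo (k + 3) ε / (k + 1) < σ → ∀ᵐ z : Fin (k + 1) → ℝ,
      {x | x ∈ Low (k + 3) c ∧ ∀ i, |ratios x i - z i| ≤ (R x : ℝ) ^ (-σ)}.Finite) ∧
    (∀ (v : ℕ → ℝ) (τ θ : ℝ), (∀ m, 1 ≤ v m) → 0 ≤ τ → ExpLe v τ → θ < 1 →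
      ∃ E : Set ℝ, dimH E ≤ ENNReal.ofReal ((expo (k + 3) ε + τ) / (1 - θ)) ∧ ∀ α : ℝ, 0 < α → α ∉ E →
        ∃ m₀ : ℕ, ∀ m : ℕ, m₀ ≤ m → ∀ x : Fin (k + 3) → ℤ, Admissible x → |(R x : ℝ) - α * v m| ≤ (v m) ^ θ →
          ∃ i, (R x : ℝ) ^ (c * Real.log (Real.log (R x))) < ((|x i| : ℤ) : ℝ)) ∧
    (∀ a : ℝ, 0 < a → ExpLe (fun m : ℕ => ((m : ℝ) + 1) ^ a) (1 / a)) ∧
    (∀ b : ℝ, 1 < b → ExpLe (fun m : ℕ => b ^ m) 0) := by
  obtain ⟨c, hc, hcount⟩ := count (k + 3) (by omega) ε hε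
  have hs := expo_pos (n := k + 3) hε
  have near : ∀ (M : Type) [MetricSpace M] (φ : (Fin (k + 3) → ℤ) → M) (σ : ℝ), 0 < σ →
      ∃ E : Set M, dimH E ≤ ENNReal.ofReal (expo (k + 3) ε / σ) ∧ ∀ z ∉ E,
        {x | x ∈ Low (k + 3) c ∧ dist (φ x) z ≤ (R x : ℝ) ^ (-σ)}.Finite := by
    intro M _ φ σ hσ
    obtain ⟨E, h1, h2⟩ := Pool.Agent.H107.ME.dim_family φ (fun x => (R x : ℝ)) R_pos hs.le hσ (J := Unit)
      (fun _ => Low (k + 3) c) (fun _ ε' hε' => hcount ε' hε')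
    exact ⟨E, h1, fun z hz => h2 z hz ()⟩
  refine ⟨c, hc, near, ?_, ?_, fun κ hκ => Pool.Agent.Y854.GM.expLe_pow κ hκ,
    fun b hb => Pool.Agent.Y854.GM.expLe_geom b hb⟩
  · intro σ hσ
    have hk : (0 : ℝ) < (k : ℝ) + 1 := by positivity
    have hσ0 : 0 < σ := lt_trans (div_pos hs hk) hσ
    obtain ⟨E, h1, h2⟩ := near (Fin (k + 1) → ℝ) ratios σ hσ0
    have hnull : volume E = 0 := by
      apply Pool.Agent.H107.ME.null_of_dimH_lt
      refine h1.trans_lt ?_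
      have h3 : expo (k + 3) ε / σ < (k : ℝ) + 1 := by
        rw [div_lt_iff₀ hk] at hσ
        rw [div_lt_iff₀ hσ0]
        linarith
      have h4 : ((Fintype.card (Fin (k + 1)) : ℕ) : ENNReal) = ENNReal.ofReal ((k : ℝ) + 1) := by
        rw [Fintype.card_fin, ← ENNReal.ofReal_natCast]
        push_cast
        rfl
      rw [h4]
      exact (ENNReal.ofReal_lt_ofReal_iff hk).2 h3
    filter_upwards [compl_mem_ae_iff.2 hnull] with z hz
    refine (h2 z hz).subset ?_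
    rintro x ⟨g1, g2⟩
    refine ⟨g1, ?_⟩
    rw [dist_pi_le_iff (Real.rpow_nonneg (by linarith [R_pos x]) _)]
    intro i
    rw [Real.dist_eq]
    exact g2 i
  · intro v τ θ hv hτ hvτ hθ
    obtain ⟨E, h1, h2⟩ := Pool.Agent.Y854.GM.windows (Low (k + 3) c) (fun x => (R x : ℝ)) hv hτ hvτ hs.le hθ hcount
    refine ⟨E, h1, fun α hα hαE => ?_⟩
    obtain ⟨m₀, hm₀⟩ := h2 α hα hαE
    refine ⟨m₀, fun m hm x hx hw => ?_⟩
    by_contra hcon
    push Not at hcon
    exact absurd hw (not_le.2 (hm₀ m hm x ⟨hx, hcon⟩))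

end Pool.Agent.Results.MP_7bfa24_nt.TuplesByRadical
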