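import Pool.Agent.Results.MP_7bfa24_nt.SuperpolynomialHeights
import Pool.Agent.V35.WM

/-!
# The generalized abc inequality for ALL tuples in windows at almost every point

Let `n = m + 1 ≥ 3`. By the starting theorem `SuperpolynomialHeights` there are few admissible `n`-tuples `x` with
`R (x_1 ⋯ x_n) ≤ Y` and `max |x_i| ≤ Y ^ (c log log Y)`. Hence the admissible tuples with `max |x_i| > R ^ κ` are few in
boxes, at most `X ^ ((1 - 1 / binom (n, ⌊n / 2⌋)) / κ + ε)` of them with `|x_i| ≤ X`, and for almost every point `α` of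
`ℝ ^ (n - 1)` the inequality `max |x_i| ≤ R ^ κ` holds for ALL admissible tuples whose first `n - 1` entries differ from
`v_k α_i` by at most `v_k ^ θ`, `k` large.
-/

set_option autoImplicit false

open MeasureTheory Filter Topology

namespace Pool.Agent.Results.MP_7bfa24_nt.TuplesNearPoints

open Pool.Agent.V35.WM Pool.Agent.Results.MP_7bfa24_nt.SuperpolynomialHeights

/-- the admissible tuples for which `max |x_i| > R ^ κ`, `R` the radical of the product of the entries -/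
def Exceptions (n : ℕ) (κ : ℝ) : Set (Fin n → ℤ) :=
  {x | Admissible x ∧ ∃ i, ((radical (∏ j, x j) : ℕ) : ℝ) ^ κ < ((|x i| : ℤ) : ℝ)}

/-- the first `m` entries of an `m + 1`-tuple -/
noncomputable def pos {m : ℕ} (x : Fin (m + 1) → ℤ) : Fin m → ℝ := fun i => (x i.castSucc : ℝ)

/-- the exponent of the exceptional tuples -/
noncomputable def sexp (m : ℕ) (κ : ℝ) : ℝ := (1 - 1 / ((m + 1).choose ((m + 1) / 2) : ℝ)) / κ

lemma abs_le_of (m : ℕ) (hm : 2 ≤ m) (x : Fin (m + 1) → ℤ) (hx0 : ∑ i, x i = 0) (X : ℝ) (hX : 1 ≤ X) (hx : ‖pos x‖ ≤ X)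
    (j : Fin (m + 1)) : ((|x j| : ℤ) : ℝ) ≤ m * X := by
  have hX0 : 0 ≤ X := by linarith
  have hm1 : (1 : ℝ) ≤ m := by exact_mod_cast (by omega : 1 ≤ m)
  have hc : ∀ i : Fin m, |(x i.castSucc : ℝ)| ≤ X := by
    intro i
    have h1 := norm_le_pi_norm (pos x) i
    rw [Real.norm_eq_abs] at h1
    exact h1.trans hx
  have hXm : X ≤ m * X := by nlinarith
  refine Fin.lastCases ?_ (fun i => ?_) j
  · rw [Fin.sum_univ_castSucc] at hx0
    have h2 : x (Fin.last m) = -∑ i : Fin m, x i.castSucc := by linarith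
    have h3 : ((|x (Fin.last m)| : ℤ) : ℝ) = |∑ i : Fin m, (x i.castSucc : ℝ)| := by
      rw [h2, abs_neg]
      push_cast
      rfl
    rw [h3]
    calc |∑ i : Fin m, (x i.castSucc : ℝ)| ≤ ∑ i : Fin m, |(x i.castSucc : ℝ)| := Finset.abs_sum_le_sum_abs _ _
      _ ≤ ∑ _i : Fin m, X := Finset.sum_le_sum fun i _ => hc i
      _ = m * X := by rw [Finset.sum_const, Finset.card_univ, Fintype.card_fin, nsmul_eq_mul]
  · have h1 := hc i
    push_cast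
    exact h1.trans hXm

lemma thin (m : ℕ) (hm : 2 ≤ m) (κ : ℝ) (hκ : 0 < κ) : Thin (Exceptions (m + 1) κ) pos (sexp m κ) := by
  intro ε hε
  obtain ⟨c, hc, Y₀, hY⟩ := SuperpolynomialHeights.result (m + 1) (by omega) (κ * ε) (by positivity)
  have htend : Tendsto (fun Y : ℕ => c * Real.log (Real.log Y)) atTop atTop :=
    (Real.tendsto_log_atTop.comp (Real.tendsto_log_atTop.comp tendsto_natCast_atTop_atTop)).const_mul_atTop hc
  obtain ⟨Y₁, hY₁⟩ := eventually_atTop.1 (htend.eventually_ge_atTop κ)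
  obtain ⟨D, hD⟩ : ∃ D : ℝ, D = 1 - 1 / ((m + 1).choose ((m + 1) / 2) : ℝ) := ⟨_, rfl⟩
  have hch : (1 : ℝ) ≤ ((m + 1).choose ((m + 1) / 2) : ℝ) := by
    exact_mod_cast Nat.choose_pos (Nat.div_le_self _ _)
  have hD0 : 0 ≤ D := by
    rw [hD, sub_nonneg, div_le_one (by linarith)]
    exact hch
  have hm0 : (0 : ℝ) < m := by exact_mod_cast (by omega : 0 < m)
  have hκ1 : 0 < 1 / κ := by positivity
  obtain ⟨K, hK⟩ : ∃ K : ℝ, K = (Y₀ : ℝ) + Y₁ + 2 + (m : ℝ) ^ (1 / κ) := ⟨_, rfl⟩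
  have hmp : 0 < (m : ℝ) ^ (1 / κ) := by positivity
  have hK0 : 0 < K := by rw [hK]; positivity
  refine ⟨K ^ (D + κ * ε), fun X hX => ?_⟩
  have hX0 : 0 < X := by linarith
  have hXp : 1 ≤ X ^ (1 / κ) := Real.one_le_rpow hX hκ1.le
  obtain ⟨Y, hYd⟩ : ∃ Y : ℕ, Y = Y₀ + Y₁ + 1 + ⌈((m : ℝ) * X) ^ (1 / κ)⌉₊ := ⟨_, rfl⟩
  have hmX : 0 < (m : ℝ) * X := by positivity
  have hY1 : (1 : ℝ) ≤ Y := by
    have : 1 ≤ Y := by omega
    exact_mod_cast this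
  have hYle : ((m : ℝ) * X) ^ (1 / κ) ≤ Y := by
    refine (Nat.le_ceil _).trans ?_
    exact_mod_cast (by omega : ⌈((m : ℝ) * X) ^ (1 / κ)⌉₊ ≤ Y)
  have hYK : (Y : ℝ) ≤ K * X ^ (1 / κ) := by
    have h1 : (Y : ℝ) = (Y₀ : ℝ) + Y₁ + 1 + (⌈((m : ℝ) * X) ^ (1 / κ)⌉₊ : ℝ) := by
      rw [hYd]
      push_cast
      ring
    have h2 : (⌈((m : ℝ) * X) ^ (1 / κ)⌉₊ : ℝ) ≤ ((m : ℝ) * X) ^ (1 / κ) + 1 := (Nat.ceil_lt_add_one (by positivity)).le
    rw [Real.mul_rpow hm0.le hX0.le] at h2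
    rw [h1, hK]
    have h3 : (0 : ℝ) ≤ Y₀ := Nat.cast_nonneg _
    have h4 : (0 : ℝ) ≤ Y₁ := Nat.cast_nonneg _
    rw [Real.mul_rpow hm0.le hX0.le]
    nlinarith [mul_nonneg h3 (sub_nonneg.2 hXp), mul_nonneg h4 (sub_nonneg.2 hXp)]
  have hkey : (m : ℝ) * X ≤ (Y : ℝ) ^ κ := by
    calc (m : ℝ) * X = (((m : ℝ) * X) ^ (1 / κ)) ^ κ := by
          rw [← Real.rpow_mul hmX.le, one_div, inv_mul_cancel₀ hκ.ne', Real.rpow_one]
      _ ≤ (Y : ℝ) ^ κ := Real.rpow_le_rpow (by positivity) hYle hκ.le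
  have hsub : {x | x ∈ Exceptions (m + 1) κ ∧ ‖pos x‖ ≤ X} ⊆ Tuples (m + 1) c Y := by
    rintro x ⟨⟨hadm, i, hi⟩, hx⟩
    have hall := abs_le_of m hm x hadm.1 X hX hx
    refine ⟨hadm, ?_, fun j => ?_⟩
    · have h1 : ((radical (∏ j, x j) : ℕ) : ℝ) ^ κ ≤ (m : ℝ) * X := hi.le.trans (hall i)
      have h2 : ((radical (∏ j, x j) : ℕ) : ℝ) ≤ ((m : ℝ) * X) ^ (1 / κ) := by
        calc ((radical (∏ j, x j) : ℕ) : ℝ) = (((radical (∏ j, x j) : ℕ) : ℝ) ^ κ) ^ (1 / κ) := by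
              rw [← Real.rpow_mul (Nat.cast_nonneg _), mul_one_div_cancel hκ.ne', Real.rpow_one]
          _ ≤ ((m : ℝ) * X) ^ (1 / κ) := Real.rpow_le_rpow (by positivity) h1 hκ1.le
      exact_mod_cast h2.trans hYle
    · refine ((hall j).trans hkey).trans ?_
      exact Real.rpow_le_rpow_of_exponent_le hY1 (hY₁ Y (by omega))
  obtain ⟨hfin, hcard⟩ := hY Y (by omega)
  refine ⟨hfin.subset hsub, ?_⟩
  have hexp : sexp m κ + ε = 1 / κ * (D + κ * ε) := by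
    rw [sexp, ← hD]
    field_simp
  calc ({x | x ∈ Exceptions (m + 1) κ ∧ ‖pos x‖ ≤ X}.ncard : ℝ) ≤ ((Tuples (m + 1) c Y).ncard : ℝ) := by
        exact_mod_cast Set.ncard_le_ncard hsub hfin
    _ ≤ (Y : ℝ) ^ (D + κ * ε) := by rw [hD]; exact hcard
    _ ≤ (K * X ^ (1 / κ)) ^ (D + κ * ε) := Real.rpow_le_rpow (by linarith) hYK (by positivity)
    _ = K ^ (D + κ * ε) * X ^ (sexp m κ + ε) := by
        rw [Real.mul_rpow hK0.le (by positivity), hexp, ← Real.rpow_mul hX0.le]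

/-- **Theorem.** Let `m ≥ 2`, `n = m + 1`, `κ > 0`, `s = (1 - 1 / binom (n, ⌊n / 2⌋)) / κ`. For all sequences `v ≥ 1` of
exponent of convergence at most `τ ≥ 0` and all `θ < 1` there is a set `E` in `ℝ ^ m` of Hausdorff dimension at most
`(s + τ) / (1 - θ)`, and of measure zero if `s + τ < m (1 - θ)`, such that for all `α` outside `E` and all large `k`: for ALL
admissible `n`-tuples `x` with `|x_i - v_k α_i| ≤ (v_k) ^ θ` for all `i ≤ m`, one has `max |x_i| ≤ R (x_1 ⋯ x_n) ^ κ`. The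
exponent of convergence of `b ^ k`, `b > 1`, is at most `0`, that of `(k + 1) ^ A` is at most `1 / A`. -/
theorem result (m : ℕ) (hm : 2 ≤ m) (κ : ℝ) (hκ : 0 < κ) :
    (∀ (v : ℕ → ℝ) (τ θ : ℝ), (∀ k, 1 ≤ v k) → 0 ≤ τ → ExpLe v τ → θ < 1 →
      ∃ E : Set (Fin m → ℝ),
        dimH E ≤ ENNReal.ofReal (((1 - 1 / ((m + 1).choose ((m + 1) / 2) : ℝ)) / κ + τ) / (1 - θ)) ∧
        ((1 - 1 / ((m + 1).choose ((m + 1) / 2) : ℝ)) / κ + τ < m * (1 - θ) → volume E = 0) ∧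
        ∀ α : Fin m → ℝ, α ∉ E → ∃ k₀ : ℕ, ∀ k : ℕ, k₀ ≤ k → ∀ x : Fin (m + 1) → ℤ, Admissible x →
          (∀ i : Fin m, |(x i.castSucc : ℝ) - v k * α i| ≤ (v k) ^ θ) →
            ∀ j, ((|x j| : ℤ) : ℝ) ≤ ((radical (∏ l, x l) : ℕ) : ℝ) ^ κ) ∧
    (∀ b : ℝ, 1 < b → ExpLe (fun k : ℕ => b ^ k) 0) ∧
    (∀ A : ℝ, 0 < A → ExpLe (fun k : ℕ => ((k : ℝ) + 1) ^ A) (1 / A)) := by
  refine ⟨fun v τ θ hv hτ hE hθ => ?_, fun b hb => expLe_geom b hb, fun A hA => expLe_pow A hA⟩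
  have hch : (1 : ℝ) ≤ ((m + 1).choose ((m + 1) / 2) : ℝ) := by
    exact_mod_cast Nat.choose_pos (Nat.div_le_self _ _)
  have hs : 0 ≤ sexp m κ := by
    rw [sexp]
    refine div_nonneg ?_ hκ.le
    rw [sub_nonneg, div_le_one (by linarith)]
    exact hch
  have h1θ : 0 < 1 - θ := by linarith
  have hdim : dimH (BadWin (Exceptions (m + 1) κ) pos v θ) ≤ ENNReal.ofReal ((sexp m κ + τ) / (1 - θ)) :=
    dim_badWin hv hτ hE hs hθ (thin m hm κ hκ)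
  refine ⟨BadWin (Exceptions (m + 1) κ) pos v θ, hdim, fun hlt => ?_, fun α hα => ?_⟩
  · refine null_of_dimH hdim (div_nonneg (by linarith) h1θ.le) ?_
    rw [Fintype.card_fin, div_lt_iff₀ h1θ]
    exact hlt
  · by_contra hcon
    apply hα
    intro n1
    push Not at hcon
    obtain ⟨k, hk, x, hadm, hx, j, hj⟩ := hcon n1
    refine ⟨k, hk, x, ⟨hadm, j, hj⟩, ?_⟩
    have hv0 : 0 ≤ v k := by linarith [hv k]
    rw [pi_norm_le_iff_of_nonneg (Real.rpow_nonneg hv0 _)]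
    intro i
    rw [Real.norm_eq_abs]
    exact hx i

end Pool.Agent.Results.MP_7bfa24_nt.TuplesNearPoints
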