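import Pool.Agent.Results.MP_7bfa24_nt.SuperpolynomialHeights
import Pool.Agent.Y854.GM.WinV
import Pool.Agent.V11326.WZ

/-!
# The inequality of the generalized abc conjecture for ALL tuples with a height in windows around `α v_k`

Let `v ≥ 1` be a sequence with exponent of convergence at most `τ` (`τ = 0` for `b ^ k`), `θ < 1`, `M > 0`, `n ≥ 3` and
`s = 1 - 1 / binom (n, ⌊n / 2⌋)`. For all `α > 0` outside a set of dimension at most `(s / M + τ) / (1 - θ)` there is `C` such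
that ALL admissible `n`-tuples with `|max |x_i| - α v_k| ≤ v_k ^ θ` for some `k` satisfy `max |x_i| ≤ C R ^ M`. If `τ = 0`,
then for almost every `α` this holds for all `n ≥ 3`, all `M > 0` and all `θ < 1 - s / M` at once; for the exponent
`M = 2 n - 5` of the conjecture, without the `ε`, this is `θ < 1 - s / (2 n - 5)` (`θ < 1 / 3` if `n = 3`).
-/

set_option autoImplicit false

open Finset Filter Topology MeasureTheory

namespace Pool.Agent.Results.MP_7bfa24_nt.WindowsOfHeights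

open Pool.Agent.Results.MP_7bfa24_nt.SuperpolynomialHeights (Admissible radical Tuples)

/-- the height `max |x_i|` -/
def height {n : ℕ} (x : Fin n → ℤ) : ℕ := univ.sup fun j => (x j).natAbs

/-- the radical of the product of the entries -/
def R {n : ℕ} (x : Fin n → ℤ) : ℕ := radical (∏ j, x j)

/-- the exponent of convergence of the sequence `v` is at most `τ` -/
def ExpLe (v : ℕ → ℝ) (τ : ℝ) : Prop := ∀ t : ℝ, τ < t → Summable (fun k : ℕ => (v k) ^ (-t))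

/-- the number `1 - 1 / binom (n, ⌊n / 2⌋)` -/
noncomputable def s (n : ℕ) : ℝ := 1 - 1 / (n.choose (n / 2) : ℝ)

lemma le_height {n : ℕ} (x : Fin n → ℤ) (j : Fin n) : (x j).natAbs ≤ height x :=
  Finset.le_sup (f := fun j => (x j).natAbs) (mem_univ j)

lemma R_pos {n : ℕ} (x : Fin n → ℤ) : (1 : ℝ) ≤ R x := by
  have h : 0 < R x := Finset.prod_pos fun p hp => (Nat.prime_of_mem_primeFactors hp).pos
  exact_mod_cast h

lemma s_nonneg (n : ℕ) : 0 ≤ s n := by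
  have h1 : 1 ≤ n.choose (n / 2) := Nat.choose_pos (Nat.div_le_self n 2)
  have h2 : (1 : ℝ) ≤ (n.choose (n / 2) : ℝ) := by exact_mod_cast h1
  have h3 : 1 / (n.choose (n / 2) : ℝ) ≤ 1 := by
    rw [div_le_one (by linarith)]
    exact h2
  unfold s
  linarith

/-- the tuples which violate `height ≤ R ^ M` -/
def Exc (n : ℕ) (M : ℝ) : Set (Fin n → ℤ) := {x | Admissible x ∧ (R x : ℝ) ^ M < (height x : ℝ)}

lemma null_of_dim {E : Set ℝ} (h : dimH E < 1) : volume E = 0 := by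
  have h1 : (volume : Measure ℝ) ≪ μH[((1 : NNReal) : ℝ)] := by
    rw [NNReal.coe_one, hausdorffMeasure_real]
  exact measure_zero_of_dimH_lt h1 (by simpa using h)

/-- the number of the violating tuples -/
lemma count (n : ℕ) (hn : 3 ≤ n) (M : ℝ) (hM : 0 < M) (ε : ℝ) (hε : 0 < ε) :
    ∃ X₀ : ℝ, ∀ X : ℝ, X₀ ≤ X → {x | x ∈ Exc n M ∧ (height x : ℝ) ≤ X}.Finite ∧
      ({x | x ∈ Exc n M ∧ (height x : ℝ) ≤ X}.ncard : ℝ) ≤ 1 * X ^ (s n / M + ε) := by
  obtain ⟨c, hc, Y₀, h⟩ := SuperpolynomialHeights.result n hn (ε * M) (by positivity)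
  set L : ℝ := Real.exp (Real.exp (2 * M / c)) with hL
  refine ⟨max 1 (((Y₀ : ℝ) + L + 4) ^ (2 * M)), fun X hX => ?_⟩
  have hX1 : 1 ≤ X := (le_max_left _ _).trans hX
  have hX0 : 0 < X := by linarith
  have hX2 : ((Y₀ : ℝ) + L + 4) ^ (2 * M) ≤ X := (le_max_right _ _).trans hX
  have hLpos : 0 < L := Real.exp_pos _
  have hY₀ : (0 : ℝ) ≤ Y₀ := Nat.cast_nonneg _
  have hbase : (0 : ℝ) < (Y₀ : ℝ) + L + 4 := by linarith
  -- `u = X ^ (1 / (2 M))`, `u ^ 2 = X ^ (1 / M)`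
  set u : ℝ := X ^ (1 / (2 * M)) with hu
  have hu0 : 0 ≤ u := Real.rpow_nonneg hX0.le _
  have hu1 : (Y₀ : ℝ) + L + 4 ≤ u := by
    have h1 : (((Y₀ : ℝ) + L + 4) ^ (2 * M)) ^ (1 / (2 * M)) ≤ X ^ (1 / (2 * M)) :=
      Real.rpow_le_rpow (Real.rpow_nonneg hbase.le _) hX2 (by positivity)
    rwa [← Real.rpow_mul hbase.le, mul_one_div_cancel (by positivity), Real.rpow_one] at h1
  have hu2 : u ^ 2 = X ^ (1 / M) := by
    rw [hu, ← Real.rpow_natCast, ← Real.rpow_mul hX0.le]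
    congr 1
    field_simp
    norm_num
  set Y : ℕ := ⌊X ^ (1 / M)⌋₊ with hY
  have hYle : (Y : ℝ) ≤ X ^ (1 / M) := Nat.floor_le (Real.rpow_nonneg hX0.le _)
  have hYu : u ≤ Y := by
    have h1 : X ^ (1 / M) < (Y : ℝ) + 1 := Nat.lt_floor_add_one _
    rw [← hu2] at h1
    nlinarith
  have hYY₀ : Y₀ ≤ Y := by
    have h1 : (Y₀ : ℝ) ≤ Y := by linarith
    exact_mod_cast h1
  have hYL : L ≤ Y := by linarith
  have hYpos : (0 : ℝ) < Y := by linarith
  have hY1 : (1 : ℝ) ≤ Y := by linarith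
  have hll : 2 * M ≤ c * Real.log (Real.log Y) := by
    have h1 : Real.exp (2 * M / c) ≤ Real.log Y := by
      rw [Real.le_log_iff_exp_le hYpos]
      exact hYL
    have h2 : 2 * M / c ≤ Real.log (Real.log Y) := by
      rw [Real.le_log_iff_exp_le (lt_of_lt_of_le (Real.exp_pos _) h1)]
      exact h1
    rw [div_le_iff₀ hc] at h2
    linarith
  have hXY : X ≤ (Y : ℝ) ^ (c * Real.log (Real.log Y)) := by
    calc X = u ^ (2 * M) := by
          rw [hu, ← Real.rpow_mul hX0.le, one_div_mul_cancel (by positivity), Real.rpow_one]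
      _ ≤ (Y : ℝ) ^ (2 * M) := Real.rpow_le_rpow hu0 hYu (by positivity)
      _ ≤ (Y : ℝ) ^ (c * Real.log (Real.log Y)) := Real.rpow_le_rpow_of_exponent_le hY1 hll
  obtain ⟨h1, h2⟩ := h Y hYY₀
  have hsub : {x | x ∈ Exc n M ∧ (height x : ℝ) ≤ X} ⊆ Tuples n c Y := by
    rintro x ⟨⟨hx, hx2⟩, hX2⟩
    refine ⟨hx, ?_, fun i => ?_⟩
    · have h5 : (R x : ℝ) ^ M ≤ X := hx2.le.trans hX2
      have h6 : ((R x : ℝ) ^ M) ^ (1 / M) ≤ X ^ (1 / M) :=
        Real.rpow_le_rpow (Real.rpow_nonneg (Nat.cast_nonneg _) _) h5 (by positivity)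
      rw [← Real.rpow_mul (Nat.cast_nonneg _), mul_one_div_cancel hM.ne', Real.rpow_one] at h6
      exact Nat.le_floor h6
    · have h7 : ((x i).natAbs : ℝ) ≤ height x := by exact_mod_cast le_height x i
      have h8 : ((|x i| : ℤ) : ℝ) = ((x i).natAbs : ℝ) := by
        rw [Nat.cast_natAbs]
      rw [h8]
      exact h7.trans (hX2.trans hXY)
  refine ⟨h1.subset hsub, ?_⟩
  have hexp : 0 ≤ 1 - 1 / (n.choose (n / 2) : ℝ) + ε * M := by
    have := s_nonneg n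
    unfold s at this
    have : 0 ≤ ε * M := by positivity
    linarith
  calc ({x | x ∈ Exc n M ∧ (height x : ℝ) ≤ X}.ncard : ℝ)
      ≤ ((Tuples n c Y).ncard : ℝ) := by exact_mod_cast Set.ncard_le_ncard hsub h1
    _ ≤ (Y : ℝ) ^ (1 - 1 / (n.choose (n / 2) : ℝ) + ε * M) := h2
    _ ≤ (X ^ (1 / M)) ^ (1 - 1 / (n.choose (n / 2) : ℝ) + ε * M) := Real.rpow_le_rpow hYpos.le hYle hexp
    _ = 1 * X ^ (s n / M + ε) := by
        rw [← Real.rpow_mul hX0.le, one_mul]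
        congr 1
        unfold s
        field_simp

/-- windows -/
lemma windows (n : ℕ) (hn : 3 ≤ n) (M : ℝ) (hM : 0 < M)
    {v : ℕ → ℝ} {τ θ : ℝ} (hpos : ∀ k, 1 ≤ v k) (hτ : 0 ≤ τ) (hv : ExpLe v τ) (hθ1 : θ < 1) :
    ∃ E : Set ℝ, dimH E ≤ ENNReal.ofReal ((s n / M + τ) / (1 - θ)) ∧ ∀ α : ℝ, 0 < α → α ∉ E →
      ∃ C : ℝ, ∀ (k : ℕ) (x : Fin n → ℤ), Admissible x → |(height x : ℝ) - α * v k| ≤ (v k) ^ θ →
        (height x : ℝ) ≤ C * (R x : ℝ) ^ M := by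
  have htv : Tendsto v atTop atTop :=
    Pool.Agent.Y854.GM.tendsto_of_expLe (fun k => lt_of_lt_of_le one_pos (hpos k)) hτ hv
  have hs : 0 ≤ s n / M := div_nonneg (s_nonneg n) hM.le
  obtain ⟨E, hE1, hE2⟩ := Pool.Agent.Y854.GM.windowsV (fun _ => Exc n M) (fun _ x => (height x : ℝ))
    (v := v) (s := s n / M) (τ := τ) (θ := θ) 1 hpos hτ hv hs hθ1 (by
      intro A ε hε
      obtain ⟨X₀, hC⟩ := count n hn M hM ε hε
      obtain ⟨k₁, hk₁⟩ := (htv.eventually_ge_atTop X₀).exists_forall_of_atTop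
      refine ⟨1 * ((A : ℝ) + 1) ^ (s n / M + ε), k₁, fun k hk => ?_⟩
      have h1 := hpos k
      have h2 : (0 : ℝ) ≤ A := Nat.cast_nonneg A
      have h3 := hC (((A : ℝ) + 1) * v k) ((hk₁ k hk).trans (by nlinarith))
      rw [Real.mul_rpow (by positivity) (by linarith), ← mul_assoc] at h3
      exact h3)
  refine ⟨E, hE1, fun α hα hαE => ?_⟩
  obtain ⟨k₀, hk⟩ := hE2 α hα hαE
  obtain ⟨B, hB⟩ : ∃ B : ℝ, ∀ k : ℕ, k < k₀ → (α + 1) * v k ≤ B := by
    refine ⟨∑ k ∈ range k₀, (α + 1) * v k, fun k hk => ?_⟩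
    exact single_le_sum (f := fun k => (α + 1) * v k)
      (fun i _ => mul_nonneg (by linarith) (by linarith [hpos i])) (mem_range.2 hk)
  refine ⟨max B 1, fun k x hx hw => ?_⟩
  have hR : (1 : ℝ) ≤ (R x : ℝ) ^ M := Real.one_le_rpow (R_pos x) hM.le
  rcases Nat.lt_or_ge k k₀ with hkk | hkk
  · have h1 : (height x : ℝ) ≤ B := (Pool.Agent.V11326.WZ.le_of_window (hpos k) hθ1 hw).trans (hB k hkk)
    calc (height x : ℝ) ≤ max B 1 := h1.trans (le_max_left _ _)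
      _ = max B 1 * 1 := (mul_one _).symm
      _ ≤ max B 1 * (R x : ℝ) ^ M :=
          mul_le_mul_of_nonneg_left hR (zero_le_one.trans (le_max_right _ _))
  · by_contra hcon
    push Not at hcon
    have h0 : (R x : ℝ) ^ M < height x := by
      refine lt_of_le_of_lt ?_ hcon
      calc (R x : ℝ) ^ M = 1 * (R x : ℝ) ^ M := (one_mul _).symm
        _ ≤ max B 1 * (R x : ℝ) ^ M := mul_le_mul_of_nonneg_right (le_max_right _ _) (zero_le_one.trans hR)
    have h1 := hk k hkk x ⟨hx, h0⟩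
    rw [one_mul] at h1
    exact absurd hw (not_le.2 h1)

/-- **The inequality of the generalized abc conjecture for all tuples with a height in windows around `α v_k`.**

(1) Let `v ≥ 1` be a sequence with exponent of convergence at most `τ ≥ 0`. For `n ≥ 3`, `M > 0` and `θ < 1` there is a set `E`
of Hausdorff dimension at most `(s n / M + τ) / (1 - θ)` such that for all `α > 0` outside `E` there is `C` such that for all
`k` all admissible `n`-tuples `x` with `|height x - α v_k| ≤ v_k ^ θ` satisfy `height x ≤ C (R x) ^ M`.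

(2) If `τ = 0`, then for almost every `α > 0` this is true for all `n ≥ 3`, all `M > 0` and all `θ < 1 - s n / M`.

(3) In particular (`M = 2 n - 5`) for almost every `α > 0`, all `n ≥ 3` and all `θ < 1 - s n / (2 n - 5)` there is `C` such
that for all `k` all admissible `n`-tuples `x` with `|height x - α v_k| ≤ v_k ^ θ` satisfy `height x ≤ C (R x) ^ (2 n - 5)`;
for `n = 3` this means: for all `θ < 1 / 3` all admissible triples in the windows satisfy `height x ≤ C R x`.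

(4) `v_k = (k + 1) ^ a` has exponent of convergence at most `1 / a`, and `v_k = b ^ k` at most `0`. -/
theorem result :
    (∀ (v : ℕ → ℝ) (τ : ℝ), (∀ k, 1 ≤ v k) → 0 ≤ τ → ExpLe v τ →
      ∀ (n : ℕ) (M θ : ℝ), 3 ≤ n → 0 < M → θ < 1 →
        ∃ E : Set ℝ, dimH E ≤ ENNReal.ofReal ((s n / M + τ) / (1 - θ)) ∧ ∀ α : ℝ, 0 < α → α ∉ E →
          ∃ C : ℝ, ∀ (k : ℕ) (x : Fin n → ℤ), Admissible x → |(height x : ℝ) - α * v k| ≤ (v k) ^ θ →
            (height x : ℝ) ≤ C * (R x : ℝ) ^ M) ∧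
    (∀ v : ℕ → ℝ, (∀ k, 1 ≤ v k) → ExpLe v 0 → ∀ᵐ α : ℝ, 0 < α →
      (∀ (n : ℕ) (M θ : ℝ), 3 ≤ n → 0 < M → θ < 1 - s n / M →
        ∃ C : ℝ, ∀ (k : ℕ) (x : Fin n → ℤ), Admissible x → |(height x : ℝ) - α * v k| ≤ (v k) ^ θ →
          (height x : ℝ) ≤ C * (R x : ℝ) ^ M) ∧
      (∀ (n : ℕ) (θ : ℝ), 3 ≤ n → θ < 1 - s n / (2 * n - 5) →
        ∃ C : ℝ, ∀ (k : ℕ) (x : Fin n → ℤ), Admissible x → |(height x : ℝ) - α * v k| ≤ (v k) ^ θ →
          (height x : ℝ) ≤ C * (R x : ℝ) ^ (2 * n - 5)) ∧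
      (∀ θ : ℝ, θ < 1 / 3 →
        ∃ C : ℝ, ∀ (k : ℕ) (x : Fin 3 → ℤ), Admissible x → |(height x : ℝ) - α * v k| ≤ (v k) ^ θ →
          (height x : ℝ) ≤ C * (R x : ℝ))) ∧
    (∀ a : ℝ, 0 < a → ExpLe (fun k : ℕ => ((k : ℝ) + 1) ^ a) (1 / a)) ∧
    (∀ b : ℝ, 1 < b → ExpLe (fun k : ℕ => b ^ k) 0) := by
  refine ⟨fun v τ hpos hτ hv n M θ hn hM hθ => windows n hn M hM hpos hτ hv hθ, fun v hpos hv => ?_,
    fun a ha => Pool.Agent.Y854.GM.expLe_pow a ha, fun b hb => Pool.Agent.Y854.GM.expLe_geom b hb⟩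
  have hall : ∀ (n : ℕ) (M θ : ℚ), ∀ᵐ α : ℝ, 0 < α → 3 ≤ n → (0 : ℝ) < M → (θ : ℝ) < 1 - s n / M →
      ∃ C : ℝ, ∀ (k : ℕ) (x : Fin n → ℤ), Admissible x → |(height x : ℝ) - α * v k| ≤ (v k) ^ (θ : ℝ) →
        (height x : ℝ) ≤ C * (R x : ℝ) ^ (M : ℝ) := by
    intro n M θ
    by_cases h : 3 ≤ n ∧ (0 : ℝ) < M ∧ (θ : ℝ) < 1 - s n / M
    · obtain ⟨hn, hM, hθ⟩ := h
      have hs : 0 ≤ s n / M := div_nonneg (s_nonneg n) hM.le
      obtain ⟨E, hE1, hE2⟩ := windows n hn M hM hpos le_rfl hv (show (θ : ℝ) < 1 by linarith)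
      have hnull : volume E = 0 := by
        apply null_of_dim
        refine hE1.trans_lt ?_
        have h1 : (s n / M + 0) / (1 - (θ : ℝ)) < 1 := by
          rw [div_lt_one (by linarith)]
          linarith
        calc ENNReal.ofReal ((s n / M + 0) / (1 - (θ : ℝ))) < ENNReal.ofReal 1 :=
              (ENNReal.ofReal_lt_ofReal_iff one_pos).2 h1
          _ = 1 := ENNReal.ofReal_one
      filter_upwards [compl_mem_ae_iff.2 hnull] with α hα hα0 _ _ _
      exact hE2 α hα0 hα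
    · exact Eventually.of_forall fun α _ hn hM hθ => absurd ⟨hn, hM, hθ⟩ h
  have hall' : ∀ᵐ α : ℝ, ∀ (n : ℕ) (M θ : ℚ), 0 < α → 3 ≤ n → (0 : ℝ) < M → (θ : ℝ) < 1 - s n / M →
      ∃ C : ℝ, ∀ (k : ℕ) (x : Fin n → ℤ), Admissible x → |(height x : ℝ) - α * v k| ≤ (v k) ^ (θ : ℝ) →
        (height x : ℝ) ≤ C * (R x : ℝ) ^ (M : ℝ) :=
    ae_all_iff.2 fun n => ae_all_iff.2 fun M => ae_all_iff.2 fun θ => hall n M θ
  filter_upwards [hall'] with α hα hα0
  have main : ∀ (n : ℕ) (M θ : ℝ), 3 ≤ n → 0 < M → θ < 1 - s n / M →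
      ∃ C : ℝ, ∀ (k : ℕ) (x : Fin n → ℤ), Admissible x → |(height x : ℝ) - α * v k| ≤ (v k) ^ θ →
        (height x : ℝ) ≤ C * (R x : ℝ) ^ M := by
    intro n M θ hn hM hθ
    have hg : 0 < 1 - θ := by
      have : 0 ≤ s n / M := div_nonneg (s_nonneg n) hM.le
      linarith
    have h1 : s n / (1 - θ) < M := by
      rw [div_lt_iff₀ hg]
      have h2 : s n / M < 1 - θ := by linarith
      rw [div_lt_iff₀ hM] at h2
      linarith
    obtain ⟨M', hM'1, hM'2⟩ := exists_rat_btwn h1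
    have hM'0 : (0 : ℝ) < M' := lt_of_le_of_lt (div_nonneg (s_nonneg n) hg.le) hM'1
    have h3 : θ < 1 - s n / M' := by
      have h4 : s n / M' < 1 - θ := by
        rw [div_lt_iff₀ hM'0]
        rw [div_lt_iff₀ hg] at hM'1
        linarith
      linarith
    obtain ⟨θ', hθ'1, hθ'2⟩ := exists_rat_btwn h3
    obtain ⟨C, hC⟩ := hα n M' θ' hα0 hn hM'0 hθ'2
    refine ⟨|C|, fun k x hx hw => ?_⟩
    refine (hC k x hx (hw.trans (Real.rpow_le_rpow_of_exponent_le (hpos k) hθ'1.le))).trans ?_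
    exact mul_le_mul (le_abs_self C) (Real.rpow_le_rpow_of_exponent_le (R_pos x) hM'2.le)
      (Real.rpow_nonneg (Nat.cast_nonneg _) _) (abs_nonneg C)
  have hq : ∀ (n : ℕ) (θ : ℝ), 3 ≤ n → θ < 1 - s n / (2 * n - 5) →
        ∃ C : ℝ, ∀ (k : ℕ) (x : Fin n → ℤ), Admissible x → |(height x : ℝ) - α * v k| ≤ (v k) ^ θ →
          (height x : ℝ) ≤ C * (R x : ℝ) ^ (2 * n - 5) := by
    intro n θ hn hθ
    have hcast : (((2 * n - 5 : ℕ) : ℕ) : ℝ) = 2 * n - 5 := by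
      rw [Nat.cast_sub (by omega)]
      push_cast
      ring
    have hn3 : (3 : ℝ) ≤ n := by exact_mod_cast hn
    obtain ⟨C, hC⟩ := main n (2 * n - 5) θ hn (by linarith) hθ
    refine ⟨C, fun k x hx hw => ?_⟩
    have h1 := hC k x hx hw
    rw [← hcast, Real.rpow_natCast] at h1
    exact h1
  refine ⟨main, hq, fun θ hθ => ?_⟩
  obtain ⟨C, hC⟩ := hq 3 θ le_rfl (by
    have h1 : s 3 = 2 / 3 := by
      unfold s
      norm_num [Nat.choose]
    rw [h1]
    norm_num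
    linarith)
  refine ⟨C, fun k x hx hw => ?_⟩
  have h1 := hC k x hx hw
  norm_num at h1
  exact h1

end Pool.Agent.Results.MP_7bfa24_nt.WindowsOfHeights
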